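import Mathlib

set_option autoImplicit false

/-!
# Evaluation of the Euler sharp sum `ζ♯(2, 1_{d-3}, 2bar)`

For every `d ≥ 3` we prove `ζ♯(2, 1_{d-3}, 2bar) = -2 ∑_{k ≥ 1} (H_{2k} - H_k) / k ^ d`, and that the identity
`ζ♯(2, 1_{d-3}, 2bar) = ζ(d+1) / 2 - 2 ∑_{m + n = d + 1, m ≥ 1, n ≥ 2, n even} ζ(m, n)` holds if and only if `d` is
even: it is true for all even `d ≥ 4` and false for all odd `d ≥ 3`.

Proof.  With `u(k, a) = (k!)² / ((k+a)! (k-a)!)` the finite transform `S φ (k) = ∑_{a ≤ k} (-1)^a u(k, a) φ(a)` turns the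
weak summation `φ(a) + 2 ∑_{n < a} φ(n)` into a division by `k` (`S_step`), and `∑_k u(k, a) / k² = 1 / a²`
(`hasSum_u`); this evaluates the sharp sum.  The double zeta values are summed by partial fractions (`kernel`).
-/

namespace Pool.Agent.Results.MP_27090e_nt.SharpSumIffEven

open Filter Topology Finset

noncomputable section

/-- An index entry: the absolute value together with the sign (`-1` for a barred entry). -/
abbrev Entry : Type := ℕ × ℤˣ

/-- The entry `m ⊕ n`: absolute values add and signs multiply. -/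
def oplus (s t : Entry) : Entry := (s.1 + t.1, s.2 * t.2)

/-- The factor `ε(s) ^ n / n ^ |s|`. -/
def term (s : Entry) (n : ℕ) : ℝ := ((s.2 : ℤ) : ℝ) ^ n / (n : ℝ) ^ s.1

/-- The finite nested sum of `∏ ε(s_j) ^ n_j / n_j ^ |s_j|` over `M < n_1 < n_2 < ... < n_k ≤ N`. -/
def trunc : List Entry → ℕ → ℕ → ℝ
  | [], _, _ => 1
  | s :: l, M, N => ∑ n ∈ Ioc M N, term s n * trunc l n N

/-- The Euler sum `ζ(s_1, ..., s_k)` converges, as the limit over `N` of the sums over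
`0 < n_1 < ... < n_k ≤ N`. -/
def Converges (l : List Entry) : Prop := ∃ z : ℝ, Tendsto (fun N => trunc l 0 N) atTop (𝓝 z)

/-- The Euler sum `ζ(s_1, ..., s_k)`, the sum over all `0 < n_1 < ... < n_k`. -/
def zeta (l : List Entry) : ℝ := limUnder atTop (fun N => trunc l 0 N)

/-- The `2 ^ (k - 1)` strings `s_1 ∘ s_2 ∘ ... ∘ s_k`, each `∘` being a comma or `⊕`; the index is
given by its first entry and the list of the others. -/
def strings : Entry → List Entry → List (List Entry)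
  | s, [] => [[s]]
  | s, t :: l => (strings t l).map (fun u => s :: u) ++ strings (oplus s t) l

/-- The Euler sharp sum `ζ♯(s_1, ..., s_k) = ∑ 2 ^ dep(t) ζ(t)` over the strings `t`. -/
def zetaSharp (s : Entry) (l : List Entry) : ℝ :=
  ((strings s l).map (fun t => 2 ^ t.length * zeta t)).sum

/-! ### Nested sums, forwards and backwards -/

/-- nested sums with weight `α` for equality and `β` for strict inequality -/
def R (α β : ℝ) : List Entry → ℕ → ℕ → ℝ
  | [], _, _ => 1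
  | t :: l, n, N => α * (term t n * R α β l n N) + β * ∑ m ∈ Ioc n N, term t m * R α β l m N

/-- one forward step -/
def F (α β : ℝ) (φ : ℕ → ℝ) (t : Entry) (m : ℕ) : ℝ :=
  term t m * (α * φ m + β * ∑ n ∈ Ioo 0 m, φ n)

lemma adjoint (α β : ℝ) (l : List Entry) (N : ℕ) : ∀ φ : ℕ → ℝ,
    ∑ n ∈ Ioc 0 N, φ n * R α β l n N = ∑ m ∈ Ioc 0 N, (l.foldl (F α β) φ) m := by
  induction l with
  | nil => intro φ; simp [R]
  | cons t l ih =>
    intro φ
    rw [List.foldl_cons, ← ih]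
    have h1 : ∀ n, φ n * R α β (t :: l) n N = α * φ n * term t n * R α β l n N +
        ∑ m ∈ Ioc 0 N, (if n < m then β * φ n * (term t m * R α β l m N) else 0) := by
      intro n
      rw [R, mul_add, ← Finset.sum_filter]
      congr 1
      · ring
      · have : (Ioc 0 N).filter (fun m => n < m) = Ioc n N := by
          ext m; simp only [Finset.mem_filter, Finset.mem_Ioc]; omega
        rw [this, Finset.mul_sum, Finset.mul_sum]
        refine Finset.sum_congr rfl fun m _ => ?_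
        ring
    rw [Finset.sum_congr rfl fun n _ => h1 n, Finset.sum_add_distrib, Finset.sum_comm,
      ← Finset.sum_add_distrib]
    refine Finset.sum_congr rfl fun m hm => ?_
    rw [Finset.mem_Ioc] at hm
    rw [← Finset.sum_filter]
    have : (Ioc 0 N).filter (fun n => n < m) = Ioo 0 m := by
      ext n; simp only [Finset.mem_filter, Finset.mem_Ioc, Finset.mem_Ioo]; omega
    rw [this, ← Finset.sum_mul, ← Finset.mul_sum]
    unfold F
    ring

lemma trunc_eq_R (l : List Entry) (s : Entry) (M N : ℕ) :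
    trunc (s :: l) M N = ∑ n ∈ Ioc M N, term s n * R 0 1 l n N := by
  induction l generalizing s M with
  | nil => simp [trunc, R]
  | cons t l ih =>
    rw [trunc]
    refine Finset.sum_congr rfl fun n _ => ?_
    rw [ih, R]
    ring

lemma sharp_trunc (l : List Entry) (s : Entry) (M N : ℕ) :
    ((strings s l).map (fun t => 2 ^ t.length * trunc t M N)).sum =
      2 * ∑ n ∈ Ioc M N, term s n * R 1 2 l n N := by
  induction l generalizing s M with
  | nil => simp [strings, trunc, R]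
  | cons t l ih =>
    rw [strings, List.map_append, List.sum_append, ih, List.map_map]
    have h1 : ((fun t => (2 : ℝ) ^ t.length * trunc t M N) ∘ fun u => s :: u) =
        fun u : List Entry => 2 * ∑ n ∈ Ioc M N, term s n * (2 ^ u.length * trunc u n N) := by
      funext u
      simp only [Function.comp, List.length_cons, trunc, Finset.mul_sum]
      refine Finset.sum_congr rfl fun n _ => ?_
      ring
    have h2 : ∀ L : List (List Entry),
        (L.map (fun u : List Entry => 2 * ∑ n ∈ Ioc M N, term s n * (2 ^ u.length * trunc u n N))).sum =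
        2 * ∑ n ∈ Ioc M N, term s n * (L.map (fun u : List Entry => 2 ^ u.length * trunc u n N)).sum := by
      intro L
      induction L with
      | nil => simp
      | cons u L ihL =>
        rw [List.map_cons, List.sum_cons, ihL, ← mul_add, ← Finset.sum_add_distrib]
        congr 1
        refine Finset.sum_congr rfl fun n _ => ?_
        rw [List.map_cons, List.sum_cons]
        ring
    rw [h1, h2, ← mul_add, ← Finset.sum_add_distrib]
    congr 1
    refine Finset.sum_congr rfl fun n hn => ?_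
    rw [ih, R]
    have h3 : term (oplus s t) n = term s n * term t n := by
      unfold term oplus
      push_cast
      rw [mul_pow, pow_add, div_mul_div_comm]
    rw [h3]
    ring

/-! ### Growth and convergence -/

lemma sum_inv_sqrt (m : ℕ) : ∑ n ∈ Ioo 0 m, 1 / √(n : ℝ) ≤ 2 * √(m : ℝ) := by
  have key : ∀ m : ℕ, ∑ n ∈ Ioo 0 (m + 1), 1 / √(n : ℝ) ≤ 2 * √(m : ℝ) := by
    intro m
    induction m with
    | zero =>
      have h0 : Ioo 0 (0 + 1) = (∅ : Finset ℕ) := rfl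
      rw [h0]; simp
    | succ m ih =>
      have h1 : Ioo 0 (m + 1 + 1) = insert (m + 1) (Ioo 0 (m + 1)) := by
        ext n; simp only [Finset.mem_Ioo, Finset.mem_insert]; omega
      rw [h1, Finset.sum_insert (by simp)]
      have hm : (0 : ℝ) ≤ m := Nat.cast_nonneg m
      have h2 : 0 < √((m + 1 : ℕ) : ℝ) := Real.sqrt_pos.2 (by positivity)
      have h3 : √(m : ℝ) ≤ √((m + 1 : ℕ) : ℝ) := Real.sqrt_le_sqrt (by push_cast; linarith)
      have h4 : √((m + 1 : ℕ) : ℝ) * √((m + 1 : ℕ) : ℝ) = m + 1 := by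
        rw [Real.mul_self_sqrt (by positivity)]; push_cast; ring
      have h5 : √(m : ℝ) * √(m : ℝ) = m := Real.mul_self_sqrt hm
      have h6 : 1 / √((m + 1 : ℕ) : ℝ) ≤ 2 * (√((m + 1 : ℕ) : ℝ) - √(m : ℝ)) := by
        rw [div_le_iff₀ h2]
        nlinarith [Real.sqrt_nonneg (m : ℝ), sq_nonneg (√((m + 1 : ℕ) : ℝ) - √(m : ℝ))]
      linarith
  rcases Nat.eq_zero_or_pos m with h | h
  · subst h; simp
  · obtain ⟨k, rfl⟩ := Nat.exists_eq_succ_of_ne_zero h.ne'
    refine (key k).trans ?_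
    have : √(k : ℝ) ≤ √((k.succ : ℕ) : ℝ) := Real.sqrt_le_sqrt (by push_cast; linarith)
    linarith

/-- the absolute values are at least `1` and the last one is at least `2` -/
def Adm : List Entry → Prop
  | [] => False
  | [s] => 2 ≤ s.1
  | s :: t :: l => 1 ≤ s.1 ∧ Adm (t :: l)

lemma term_abs (t : Entry) (m : ℕ) : |term t m| = 1 / (m : ℝ) ^ t.1 := by
  unfold term
  rw [abs_div, abs_pow]
  have h : |((t.2 : ℤ) : ℝ)| = 1 := by
    rcases Int.units_eq_one_or t.2 with h | h <;> simp [h]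
  rw [h, one_pow, abs_of_nonneg (by positivity)]

lemma term_abs_le {t : Entry} {m k : ℕ} (hm : 1 ≤ m) (h : k ≤ t.1) :
    |term t m| ≤ 1 / (m : ℝ) ^ k := by
  rw [term_abs]
  have h1 : (1 : ℝ) ≤ m := by exact_mod_cast hm
  exact one_div_le_one_div_of_le (by positivity) (pow_le_pow_right₀ h1 h)

/-- the core bound for one forward step -/
lemma F_core (α β C : ℝ) (hC : 0 ≤ C) (φ : ℕ → ℝ) (hφ : ∀ n, 1 ≤ n → |φ n| ≤ C / √(n : ℝ)) (m : ℕ)
    (hm : 1 ≤ m) :
    |α * φ m + β * ∑ n ∈ Ioo 0 m, φ n| ≤ (|α| * C + 2 * |β| * C) * √(m : ℝ) := by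
  have h1 : (1 : ℝ) ≤ m := by exact_mod_cast hm
  have h2 : 1 ≤ √(m : ℝ) := Real.one_le_sqrt.2 h1
  have h3 : |φ m| ≤ C * √(m : ℝ) := by
    refine (hφ m hm).trans ?_
    rw [div_le_iff₀ (by positivity), mul_assoc, Real.mul_self_sqrt (by linarith)]
    nlinarith
  have h4 : |∑ n ∈ Ioo 0 m, φ n| ≤ 2 * C * √(m : ℝ) := by
    refine (Finset.abs_sum_le_sum_abs _ _).trans ?_
    have h5 : ∑ n ∈ Ioo 0 m, |φ n| ≤ ∑ n ∈ Ioo 0 m, C * (1 / √(n : ℝ)) := by
      refine Finset.sum_le_sum fun n hn => ?_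
      rw [Finset.mem_Ioo] at hn
      have := hφ n hn.1
      rwa [mul_one_div]
    rw [← Finset.mul_sum] at h5
    have h6 := mul_le_mul_of_nonneg_left (sum_inv_sqrt m) hC
    linarith
  calc |α * φ m + β * ∑ n ∈ Ioo 0 m, φ n| ≤ |α| * |φ m| + |β| * |∑ n ∈ Ioo 0 m, φ n| := by
        rw [← abs_mul, ← abs_mul]; exact abs_add_le _ _
    _ ≤ |α| * (C * √(m : ℝ)) + |β| * (2 * C * √(m : ℝ)) := by
        gcongr
    _ = _ := by ring

lemma F_bound (α β C : ℝ) (hC : 0 ≤ C) (φ : ℕ → ℝ) (hφ : ∀ n, 1 ≤ n → |φ n| ≤ C / √(n : ℝ))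
    (t : Entry) (ht : 1 ≤ t.1) (m : ℕ) (hm : 1 ≤ m) :
    |F α β φ t m| ≤ (|α| * C + 2 * |β| * C) / √(m : ℝ) := by
  have h1 : (1 : ℝ) ≤ m := by exact_mod_cast hm
  have h2 : 1 ≤ √(m : ℝ) := Real.one_le_sqrt.2 h1
  have h5 : √(m : ℝ) * √(m : ℝ) = m := Real.mul_self_sqrt (by linarith)
  unfold F
  rw [abs_mul]
  have h6 := F_core α β C hC φ hφ m hm
  have h7 := term_abs_le hm ht
  calc |term t m| * |α * φ m + β * ∑ n ∈ Ioo 0 m, φ n|
      ≤ 1 / (m : ℝ) ^ 1 * ((|α| * C + 2 * |β| * C) * √(m : ℝ)) := by gcongr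
    _ = (|α| * C + 2 * |β| * C) * (√(m : ℝ) / (√(m : ℝ) * √(m : ℝ))) := by rw [h5]; ring
    _ = _ := by field_simp

lemma F_bound2 (α β C : ℝ) (hC : 0 ≤ C) (φ : ℕ → ℝ) (hφ : ∀ n, 1 ≤ n → |φ n| ≤ C / √(n : ℝ))
    (t : Entry) (ht : 2 ≤ t.1) (m : ℕ) (hm : 1 ≤ m) :
    |F α β φ t m| ≤ (|α| * C + 2 * |β| * C) / (m * √(m : ℝ)) := by
  have h1 : (1 : ℝ) ≤ m := by exact_mod_cast hm
  have h2 : 1 ≤ √(m : ℝ) := Real.one_le_sqrt.2 h1
  have h5 : √(m : ℝ) * √(m : ℝ) = m := Real.mul_self_sqrt (by linarith)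
  unfold F
  rw [abs_mul]
  have h6 := F_core α β C hC φ hφ m hm
  have h7 := term_abs_le hm ht
  calc |term t m| * |α * φ m + β * ∑ n ∈ Ioo 0 m, φ n|
      ≤ 1 / (m : ℝ) ^ 2 * ((|α| * C + 2 * |β| * C) * √(m : ℝ)) := by gcongr
    _ = (|α| * C + 2 * |β| * C) * (√(m : ℝ) / (m * (√(m : ℝ) * √(m : ℝ)))) := by rw [h5]; ring
    _ = _ := by field_simp

lemma fold_bound (α β : ℝ) : ∀ (l : List Entry), Adm l → ∀ (φ : ℕ → ℝ) (C : ℝ), 0 ≤ C →
    (∀ n, 1 ≤ n → |φ n| ≤ C / √(n : ℝ)) →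
    ∃ C' : ℝ, ∀ m, 1 ≤ m → |(l.foldl (F α β) φ) m| ≤ C' / (m * √(m : ℝ))
  | [], h, _, _, _, _ => h.elim
  | [s], h, φ, C, hC, hφ => ⟨_, fun m hm => F_bound2 α β C hC φ hφ s h m hm⟩
  | s :: t :: l, h, φ, C, hC, hφ => by
    rw [List.foldl_cons]
    exact fold_bound α β (t :: l) h.2 (F α β φ s) _ (by positivity)
      (fun n hn => F_bound α β C hC φ hφ s h.1 n hn)

lemma summable_aux : Summable (fun i : ℕ => 1 / (((i + 1 : ℕ) : ℝ) * √((i + 1 : ℕ) : ℝ))) := by
  have h := (summable_nat_add_iff 1).2 (Real.summable_one_div_nat_rpow.2 (by norm_num : (1 : ℝ) < 3 / 2))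
  refine h.congr fun i => ?_
  have hi : (0 : ℝ) < ((i + 1 : ℕ) : ℝ) := by positivity
  congr 1
  rw [show (3 / 2 : ℝ) = 1 + 1 / 2 by norm_num, Real.rpow_add hi, Real.rpow_one, Real.sqrt_eq_rpow]

lemma summable_of_bound {g : ℕ → ℝ} {C : ℝ} (h : ∀ m, 1 ≤ m → |g m| ≤ C / (m * √(m : ℝ))) :
    Summable (fun i : ℕ => g (i + 1)) := by
  refine Summable.of_norm_bounded (g := fun i : ℕ => C * (1 / (((i + 1 : ℕ) : ℝ) * √((i + 1 : ℕ) : ℝ))))
    (summable_aux.mul_left C) fun i => ?_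
  rw [Real.norm_eq_abs, mul_one_div]
  exact h (i + 1) (by omega)

lemma sum_Ioc_eq_range (g : ℕ → ℝ) (N : ℕ) : ∑ m ∈ Ioc 0 N, g m = ∑ i ∈ range N, g (i + 1) := by
  have : Ioc 0 N = (range N).map (addRightEmbedding 1) := by
    ext m
    simp only [Finset.mem_Ioc, Finset.mem_map, Finset.mem_range, addRightEmbedding_apply]
    constructor
    · intro h; exact ⟨m - 1, by omega, by omega⟩
    · rintro ⟨a, h, rfl⟩; omega
  rw [this, Finset.sum_map]
  rfl

lemma tendsto_of_bound {g : ℕ → ℝ} {C : ℝ} (h : ∀ m, 1 ≤ m → |g m| ≤ C / (m * √(m : ℝ))) :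
    Tendsto (fun N => ∑ m ∈ Ioc 0 N, g m) atTop (𝓝 (∑' i : ℕ, g (i + 1))) := by
  simp_rw [sum_Ioc_eq_range]
  exact (summable_of_bound h).hasSum.tendsto_sum_nat

/-- every admissible Euler sum converges -/
lemma converges_of_adm : ∀ l : List Entry, Adm l → Converges l
  | [], h => h.elim
  | [s], h => by
    refine ⟨_, (tendsto_of_bound (g := term s) (C := 1) fun m hm => ?_).congr fun N => ?_⟩
    · refine (term_abs_le hm h).trans ?_
      have h1 : (1 : ℝ) ≤ m := by exact_mod_cast hm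
      have h5 : √(m : ℝ) ≤ m := by
        rw [Real.sqrt_le_left (by linarith)]; nlinarith
      have h6 : 0 < √(m : ℝ) := Real.sqrt_pos.2 (by linarith)
      refine one_div_le_one_div_of_le (by positivity) ?_
      nlinarith
    · simp [trunc]
  | s :: t :: l, h => by
    have h1 : ∀ n, 1 ≤ n → |term s n| ≤ 1 / √(n : ℝ) := by
      intro n hn
      refine (term_abs_le hn h.1).trans ?_
      have h1 : (1 : ℝ) ≤ n := by exact_mod_cast hn
      have h5 : √(n : ℝ) ≤ n := by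
        rw [Real.sqrt_le_left (by linarith)]; nlinarith
      have h6 : 0 < √(n : ℝ) := Real.sqrt_pos.2 (by linarith)
      rw [pow_one]
      exact one_div_le_one_div_of_le h6 h5
    obtain ⟨C', hC'⟩ := fold_bound 0 1 (t :: l) h.2 (term s) 1 zero_le_one h1
    refine ⟨_, (tendsto_of_bound hC').congr fun N => ?_⟩
    rw [trunc_eq_R, adjoint]

lemma zeta_tendsto {l : List Entry} (h : Converges l) :
    Tendsto (fun N => trunc l 0 N) atTop (𝓝 (zeta l)) := by
  obtain ⟨z, hz⟩ := h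
  unfold zeta
  rwa [hz.limUnder_eq]

lemma adm_oplus (s t : Entry) (l : List Entry) (hs : 1 ≤ s.1) (h : Adm (t :: l)) :
    Adm (oplus s t :: l) := by
  cases l with
  | nil => show 2 ≤ s.1 + t.1; have : 2 ≤ t.1 := h; omega
  | cons u l =>
    refine ⟨?_, h.2⟩
    show 1 ≤ s.1 + t.1
    omega

lemma adm_cons (s : Entry) (u : List Entry) (hs : 1 ≤ s.1) (h : Adm u) : Adm (s :: u) := by
  cases u with
  | nil => exact h.elim
  | cons t l => exact ⟨hs, h⟩

lemma adm_strings : ∀ (l : List Entry) (s : Entry), Adm (s :: l) → ∀ u ∈ strings s l, Adm u := by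
  intro l
  induction l with
  | nil =>
    intro s h u hu
    simp only [strings, List.mem_singleton] at hu
    rw [hu]; exact h
  | cons t l ih =>
    intro s h u hu
    rw [strings, List.mem_append, List.mem_map] at hu
    rcases hu with ⟨v, hv, rfl⟩ | hu
    · exact adm_cons s v h.1 (ih t h.2 v hv)
    · exact ih (oplus s t) (adm_oplus s t l h.1 h.2) u hu

/-- The sharp sum is the limit of the finite sums over weakly increasing tuples. -/
lemma sharp_tendsto (s : Entry) (l : List Entry) (h : Adm (s :: l)) :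
    Tendsto (fun N => 2 * ∑ n ∈ Ioc 0 N, term s n * R 1 2 l n N) atTop (𝓝 (zetaSharp s l)) := by
  simp_rw [← sharp_trunc]
  unfold zetaSharp
  have key : ∀ L : List (List Entry), (∀ u ∈ L, Adm u) →
      Tendsto (fun N => (L.map (fun t => (2 : ℝ) ^ t.length * trunc t 0 N)).sum) atTop
        (𝓝 (L.map (fun t => 2 ^ t.length * zeta t)).sum) := by
    intro L
    induction L with
    | nil => intro _; simp
    | cons u L ih =>
      intro hL
      simp only [List.map_cons, List.sum_cons]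
      refine Tendsto.add ?_ (ih fun v hv => hL v (List.mem_cons_of_mem _ hv))
      exact (zeta_tendsto (converges_of_adm u (hL u List.mem_cons_self))).const_mul _
  exact key _ (adm_strings l s h)

/-! ### The connector -/

/-- `(k!)² / ((k + a)! (k - a)!)` -/
def u (k a : ℕ) : ℝ := ∏ i ∈ range a, ((k : ℝ) - i) / (k + i + 1)

lemma u_succ (k a : ℕ) : u k (a + 1) = u k a * (((k : ℝ) - a) / (k + a + 1)) := by
  unfold u
  rw [Finset.prod_range_succ]

lemma u_eq_zero {k a : ℕ} (h : k < a) : u k a = 0 := by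
  unfold u
  refine Finset.prod_eq_zero (Finset.mem_range.2 h) ?_
  simp

lemma u_nonneg (k a : ℕ) : 0 ≤ u k a := by
  rcases lt_or_ge k a with h | h
  · rw [u_eq_zero h]
  · unfold u
    refine Finset.prod_nonneg fun i hi => ?_
    rw [Finset.mem_range] at hi
    have : (i : ℝ) ≤ k := by exact_mod_cast (by omega : i ≤ k)
    exact div_nonneg (by linarith) (by positivity)

lemma u_shift (k a : ℕ) :
    u k a * ((k : ℝ) + 1) ^ 2 = u (k + 1) a * (((k : ℝ) + 1) ^ 2 - (a : ℝ) ^ 2) := by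
  induction a with
  | zero => simp [u]
  | succ a ih =>
    have hk : (0 : ℝ) ≤ k := Nat.cast_nonneg k
    have ha : (0 : ℝ) ≤ a := Nat.cast_nonneg a
    rw [u_succ, u_succ]
    push_cast
    have e1 : u k a * (((k : ℝ) - a) / (k + a + 1)) * ((k : ℝ) + 1) ^ 2 =
        (u k a * ((k : ℝ) + 1) ^ 2) * (((k : ℝ) - a) / (k + a + 1)) := by ring
    rw [e1, ih]
    field_simp
    ring

lemma u_tendsto (a : ℕ) : Tendsto (fun k => u k a) atTop (𝓝 1) := by
  induction a with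
  | zero => simp [u]
  | succ a ih =>
    simp_rw [u_succ]
    have h1 : Tendsto (fun k : ℕ => ((k : ℝ) - a) / (k + a + 1)) atTop (𝓝 1) := by
      have h2 : Tendsto (fun k : ℕ => (2 * (a : ℝ) + 1) / ((k : ℝ) + (a + 1))) atTop (𝓝 0) :=
        Tendsto.div_atTop tendsto_const_nhds
          (tendsto_atTop_add_const_right _ _ tendsto_natCast_atTop_atTop)
      have h3 := (tendsto_const_nhds (x := (1 : ℝ))).sub h2
      rw [sub_zero] at h3
      refine h3.congr fun k => ?_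
      have hk : (0 : ℝ) ≤ k := Nat.cast_nonneg k
      have ha : (0 : ℝ) ≤ a := Nat.cast_nonneg a
      field_simp
      ring
    simpa using ih.mul h1

lemma hasSum_u (a : ℕ) (ha : 1 ≤ a) :
    HasSum (fun K : ℕ => u (K + 1) a / ((K : ℝ) + 1) ^ 2) (1 / (a : ℝ) ^ 2) := by
  have ha' : (0 : ℝ) < a := by exact_mod_cast ha
  rw [hasSum_iff_tendsto_nat_of_nonneg
    (fun K => div_nonneg (u_nonneg _ _) (by positivity))]
  have h1 : ∀ K : ℕ, u (K + 1) a / ((K : ℝ) + 1) ^ 2 = (u (K + 1) a - u K a) / (a : ℝ) ^ 2 := by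
    intro K
    have hK : (0 : ℝ) ≤ K := Nat.cast_nonneg K
    rw [div_eq_div_iff (by positivity) (by positivity)]
    linear_combination u_shift K a
  have h2 : ∀ n : ℕ, ∑ K ∈ range n, u (K + 1) a / ((K : ℝ) + 1) ^ 2 = u n a / (a : ℝ) ^ 2 := by
    intro n
    rw [Finset.sum_congr rfl fun K _ => h1 K, ← Finset.sum_div, Finset.sum_range_sub (fun K => u K a),
      u_eq_zero (k := 0) (a := a) (by omega), sub_zero]
  simp_rw [h2]
  exact (u_tendsto a).div_const _

/-- the transform -/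
def S (ψ : ℕ → ℝ) (k : ℕ) : ℝ := ∑ a ∈ Ioc 0 k, (-1 : ℝ) ^ a * u k a * ψ a

lemma Ioo_succ (K : ℕ) : Ioo 0 (K + 1) = Ioc 0 K := by
  ext n; simp only [Finset.mem_Ioo, Finset.mem_Ioc]; omega

lemma sum_Ioc_succ' (g : ℕ → ℝ) (K : ℕ) : ∑ a ∈ Ioc 0 (K + 1), g a = ∑ a ∈ Ioc 0 K, g a + g (K + 1) := by
  rw [Finset.sum_Ioc_succ_top (by omega)]

lemma byparts (w φ : ℕ → ℝ) (K : ℕ) :
    ∑ a ∈ Ioc 0 K, (-1 : ℝ) ^ a * ((w a + w (a + 1)) * (1 * φ a + 2 * ∑ n ∈ Ioo 0 a, φ n) -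
      (w a - w (a + 1)) * φ a) = (-1) ^ K * w (K + 1) * (2 * ∑ n ∈ Ioc 0 K, φ n) := by
  induction K with
  | zero => simp
  | succ K ih =>
    rw [sum_Ioc_succ', ih, Ioo_succ, sum_Ioc_succ', pow_succ]
    ring

lemma S_step (φ : ℕ → ℝ) (k : ℕ) :
    (k : ℝ) * S (fun a => 1 * φ a + 2 * ∑ n ∈ Ioo 0 a, φ n) k = S (fun a => a * φ a) k := by
  have h := byparts (fun a => ((k : ℝ) + a) * u k a) φ k
  have hw : ∀ a : ℕ, ((k : ℝ) + (a + 1 : ℕ)) * u k (a + 1) = ((k : ℝ) - a) * u k a := by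
    intro a
    rw [u_succ]
    push_cast
    have hk : (0 : ℝ) ≤ k := Nat.cast_nonneg k
    have ha : (0 : ℝ) ≤ a := Nat.cast_nonneg a
    field_simp
    ring
  rw [u_eq_zero (k := k) (a := k + 1) (by omega), mul_zero, mul_zero, zero_mul] at h
  unfold S
  rw [Finset.mul_sum, ← sub_eq_zero, ← Finset.sum_sub_distrib]
  have h2 : ∑ a ∈ Ioc 0 k, (-1 : ℝ) ^ a * ((((k : ℝ) + a) * u k a + ((k : ℝ) + (a + 1 : ℕ)) * u k (a + 1)) *
      (1 * φ a + 2 * ∑ n ∈ Ioo 0 a, φ n) - (((k : ℝ) + a) * u k a - ((k : ℝ) + (a + 1 : ℕ)) * u k (a + 1)) * φ a) =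
      2 * ∑ a ∈ Ioc 0 k, ((k : ℝ) * ((-1 : ℝ) ^ a * u k a * (1 * φ a + 2 * ∑ n ∈ Ioo 0 a, φ n)) -
        (-1 : ℝ) ^ a * u k a * (a * φ a)) := by
    rw [Finset.mul_sum]
    refine Finset.sum_congr rfl fun a _ => ?_
    rw [hw a]
    ring
  rw [h2] at h
  linarith

lemma S_one (k : ℕ) (hk : 1 ≤ k) : S (fun _ => 1) k = -1 / 2 := by
  have hk0 : (0 : ℝ) < k := by exact_mod_cast hk
  have h1 : ∀ (w : ℕ → ℝ) (K : ℕ), ∑ a ∈ Ioc 0 K, (-1 : ℝ) ^ a * (w a + w (a + 1)) =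
      -w 1 + (-1) ^ K * w (K + 1) := by
    intro w K
    induction K with
    | zero => simp
    | succ K ih => rw [sum_Ioc_succ', ih, pow_succ]; ring
  have hw : ∀ a : ℕ, ((k : ℝ) + (a + 1 : ℕ)) * u k (a + 1) = ((k : ℝ) - a) * u k a := by
    intro a
    rw [u_succ]
    push_cast
    have ha : (0 : ℝ) ≤ a := Nat.cast_nonneg a
    field_simp
    ring
  have h2 := h1 (fun a => ((k : ℝ) + a) * u k a) k
  rw [u_eq_zero (k := k) (a := k + 1) (by omega), mul_zero, mul_zero, add_zero] at h2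
  have h3 : ∑ a ∈ Ioc 0 k, (-1 : ℝ) ^ a * (((k : ℝ) + a) * u k a + ((k : ℝ) + (a + 1 : ℕ)) * u k (a + 1)) =
      2 * k * S (fun _ => 1) k := by
    unfold S
    rw [Finset.mul_sum]
    refine Finset.sum_congr rfl fun a _ => ?_
    rw [hw a]
    ring
  rw [h3] at h2
  have h4 : u k 1 = k / (k + 1) := by
    unfold u
    simp
  rw [h4] at h2
  have h5 : ((k : ℝ) + (1 : ℕ)) * ((k : ℝ) / (k + 1)) = k := by
    push_cast
    field_simp
  rw [h5] at h2
  have h6 : 2 * (k : ℝ) * (S (fun _ => 1) k - (-1 / 2)) = 0 := by linarith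
  have h7 := (mul_eq_zero.1 h6).resolve_left (by positivity)
  linarith

lemma S_id (k : ℕ) (hk : 1 ≤ k) : (2 * (k : ℝ) - 1) * S (fun a => a) k = -(k : ℝ) / 2 := by
  have h := S_step (fun _ => 1) k
  have h1 : S (fun a => 1 * (1 : ℝ) + 2 * ∑ _n ∈ Ioo 0 a, (1 : ℝ)) k =
      2 * S (fun a => a) k - S (fun _ => 1) k := by
    unfold S
    rw [Finset.mul_sum, ← Finset.sum_sub_distrib]
    refine Finset.sum_congr rfl fun a ha => ?_
    rw [Finset.mem_Ioc] at ha
    have : (∑ _n ∈ Ioo 0 a, (1 : ℝ)) = (a : ℝ) - 1 := by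
      rw [Finset.sum_const, Nat.card_Ioo, nsmul_eq_mul, mul_one]
      have : a - 0 - 1 = a - 1 := by omega
      rw [this, Nat.cast_sub (by omega)]
      simp
    simp only [this]
    ring
  rw [h1, S_one k hk] at h
  have h2 : S (fun a => (a : ℝ) * 1) k = S (fun a => a) k := by simp [S]
  rw [h2] at h
  linarith

/-- `H_{2k} - H_k`, the sum of `1 / j` over `k < j ≤ 2k` -/
def hd (k : ℕ) : ℝ := ∑ j ∈ Ioc k (2 * k), 1 / (j : ℝ)

lemma hd_succ (k : ℕ) : hd (k + 1) = hd k + 1 / ((2 * (k : ℝ) + 1) * (2 * k + 2)) := by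
  have h1 : Ioc (k + 1) (2 * (k + 1)) ∪ {k + 1} = Ioc k (2 * k) ∪ {2 * k + 1, 2 * k + 2} := by
    ext n
    simp only [Finset.mem_union, Finset.mem_Ioc, Finset.mem_singleton, Finset.mem_insert]
    omega
  have h2 : Disjoint (Ioc (k + 1) (2 * (k + 1))) {k + 1} := by
    rw [Finset.disjoint_singleton_right, Finset.mem_Ioc]; omega
  have h3 : Disjoint (Ioc k (2 * k)) {2 * k + 1, 2 * k + 2} := by
    rw [Finset.disjoint_left]
    intro n hn
    rw [Finset.mem_Ioc] at hn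
    simp only [Finset.mem_insert, Finset.mem_singleton]
    omega
  have h4 : ∑ j ∈ Ioc (k + 1) (2 * (k + 1)) ∪ {k + 1}, 1 / (j : ℝ) =
      ∑ j ∈ Ioc k (2 * k) ∪ {2 * k + 1, 2 * k + 2}, 1 / (j : ℝ) := by rw [h1]
  rw [Finset.sum_union h2, Finset.sum_union h3, Finset.sum_singleton,
    Finset.sum_pair (by omega)] at h4
  unfold hd
  push_cast at h4 ⊢
  have hk : (0 : ℝ) ≤ k := Nat.cast_nonneg k
  have h5 : 1 / (2 * (k : ℝ) + 1) + 1 / (2 * k + 2) - 1 / (k + 1) = 1 / ((2 * (k : ℝ) + 1) * (2 * k + 2)) := by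
    field_simp
    ring
  linarith

lemma S_inv (k : ℕ) : S (fun a => 1 / (a : ℝ)) k = -hd k := by
  induction k with
  | zero => simp [S, hd]
  | succ K ih =>
    rw [hd_succ]
    have hK : (0 : ℝ) ≤ K := Nat.cast_nonneg K
    have h1 : S (fun a => 1 / (a : ℝ)) K = ∑ a ∈ Ioc 0 (K + 1), (-1 : ℝ) ^ a * u K a * (1 / (a : ℝ)) := by
      rw [sum_Ioc_succ', u_eq_zero (k := K) (a := K + 1) (by omega)]
      simp [S]
    have h2 : S (fun a => 1 / (a : ℝ)) (K + 1) - S (fun a => 1 / (a : ℝ)) K =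
        S (fun a => (a : ℝ)) (K + 1) / ((K : ℝ) + 1) ^ 2 := by
      rw [h1]
      unfold S
      rw [← Finset.sum_sub_distrib, Finset.sum_div]
      refine Finset.sum_congr rfl fun a ha => ?_
      rw [Finset.mem_Ioc] at ha
      have ha0 : (0 : ℝ) < a := by exact_mod_cast ha.1
      have h3 := u_shift K a
      have h4 : u K a = u (K + 1) a * (((K : ℝ) + 1) ^ 2 - (a : ℝ) ^ 2) / ((K : ℝ) + 1) ^ 2 := by
        rw [eq_div_iff (by positivity)]; exact h3
      rw [h4]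
      field_simp
      try ring
    have h5 := S_id (K + 1) (by omega)
    push_cast at h5
    have h6 : S (fun a => (a : ℝ)) (K + 1) = -((K : ℝ) + 1) / (2 * (2 * K + 1)) := by
      rw [eq_div_iff (by positivity)]
      linarith
    rw [h6] at h2
    have h7 : -((K : ℝ) + 1) / (2 * (2 * K + 1)) / ((K : ℝ) + 1) ^ 2 = -(1 / ((2 * (K : ℝ) + 1) * (2 * K + 2))) := by
      field_simp
      try ring
    rw [h7] at h2
    linarith

/-- the forward iterates -/
def G : ℕ → ℕ → ℝ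
  | 0 => fun n => 2 * term (2, 1) n
  | r + 1 => F 1 2 (G r) (1, 1)

lemma G_eq (r : ℕ) : (List.replicate r ((1, 1) : Entry)).foldl (F 1 2) (fun n => 2 * term (2, 1) n) = G r := by
  induction r with
  | zero => rfl
  | succ r ih => rw [List.replicate_succ', List.foldl_append, ih]; rfl

lemma G_bound (r : ℕ) : ∃ C : ℝ, 0 ≤ C ∧ ∀ n, 1 ≤ n → |G r n| ≤ C / √(n : ℝ) := by
  induction r with
  | zero =>
    refine ⟨2, by norm_num, fun n hn => ?_⟩
    show |2 * term (2, 1) n| ≤ _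
    rw [abs_mul, abs_two]
    have h1 : (1 : ℝ) ≤ n := by exact_mod_cast hn
    have h5 : √(n : ℝ) ≤ n := by
      rw [Real.sqrt_le_left (by linarith)]; nlinarith
    have h6 : 0 < √(n : ℝ) := Real.sqrt_pos.2 (by linarith)
    have h7 := term_abs_le (t := ((2, 1) : Entry)) hn (k := 1) (by norm_num)
    rw [pow_one] at h7
    have h8 := one_div_le_one_div_of_le h6 h5
    have h9 : (2 : ℝ) / √(n : ℝ) = 2 * (1 / √(n : ℝ)) := by ring
    rw [h9]
    linarith
  | succ r ih =>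
    obtain ⟨C, hC, h⟩ := ih
    exact ⟨_, by positivity, fun n hn => F_bound 1 2 C hC (G r) h (1, 1) le_rfl n hn⟩

lemma S_G (r k : ℕ) : (k : ℝ) ^ (r + 1) * S (fun a => 1 * G r a + 2 * ∑ n ∈ Ioo 0 a, G r n) k = -2 * hd k := by
  induction r with
  | zero =>
    rw [zero_add, pow_one, S_step]
    have h1 : S (fun a => (a : ℝ) * G 0 a) k = 2 * S (fun a => 1 / (a : ℝ)) k := by
      unfold S
      rw [Finset.mul_sum]
      refine Finset.sum_congr rfl fun a ha => ?_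
      rw [Finset.mem_Ioc] at ha
      have ha0 : (0 : ℝ) < a := by exact_mod_cast ha.1
      show _ * ((a : ℝ) * (2 * term (2, 1) a)) = _
      unfold term
      simp only [Units.val_one, Int.cast_one, one_pow]
      field_simp
    rw [h1, S_inv]
    ring
  | succ r ih =>
    rw [pow_succ, mul_assoc, S_step, ← ih]
    congr 1
    unfold S
    refine Finset.sum_congr rfl fun a ha => ?_
    rw [Finset.mem_Ioc] at ha
    have ha0 : (0 : ℝ) < a := by exact_mod_cast ha.1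
    show _ * ((a : ℝ) * F 1 2 (G r) (1, 1) a) = _
    unfold F term
    simp only [Units.val_one, Int.cast_one, one_pow, pow_one]
    field_simp

/-- the index `(2, 1_r, 2bar)` without its first entry -/
lemma adm_index (r : ℕ) : Adm ((2, 1) :: (List.replicate r ((1, 1) : Entry) ++ [(2, -1)])) := by
  refine adm_cons _ _ (by norm_num) ?_
  induction r with
  | zero => exact le_refl 2
  | succ r ih =>
    rw [List.replicate_succ, List.cons_append]
    exact adm_cons _ _ le_rfl ih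

/-- Evaluation of the sharp sum. -/
lemma sharp_eval (r : ℕ) : zetaSharp (2, 1) (List.replicate r (1, 1) ++ [(2, -1)]) =
    -2 * ∑' k : ℕ, hd (k + 1) / ((k : ℝ) + 1) ^ (r + 3) := by
  obtain ⟨C, hC, hG⟩ := G_bound r
  have hb := F_bound2 1 2 C hC (G r) hG (2, -1) le_rfl
  have h1 := sharp_tendsto _ _ (adm_index r)
  have h2 : ∀ N, 2 * ∑ n ∈ Ioc 0 N, term (2, 1) n * R 1 2 (List.replicate r (1, 1) ++ [(2, -1)]) n N =
      ∑ m ∈ Ioc 0 N, F 1 2 (G r) (2, -1) m := by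
    intro N
    rw [← G_eq]
    have h3 := adjoint 1 2 (List.replicate r ((1, 1) : Entry) ++ [(2, -1)]) N (fun n => 2 * term (2, 1) n)
    rw [List.foldl_append] at h3
    simp only [List.foldl_cons, List.foldl_nil] at h3
    rw [← h3, Finset.mul_sum]
    refine Finset.sum_congr rfl fun n _ => ?_
    ring
  simp_rw [h2] at h1
  rw [tendsto_nhds_unique h1 (tendsto_of_bound hb)]
  -- the double series
  set Φ : ℕ → ℝ := fun a => 1 * G r a + 2 * ∑ n ∈ Ioo 0 a, G r n with hΦ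
  have hF : ∀ a : ℕ, F 1 2 (G r) (2, -1) a = (-1) ^ a * Φ a * (1 / (a : ℝ) ^ 2) := by
    intro a
    unfold F term
    simp only [Units.val_neg, Units.val_one, Int.cast_neg, Int.cast_one, hΦ]
    ring
  let f : ℕ → ℕ → ℝ := fun A K => (-1) ^ (A + 1) * Φ (A + 1) * (u (K + 1) (A + 1) / ((K : ℝ) + 1) ^ 2)
  have hrow : ∀ A, HasSum (f A) (F 1 2 (G r) (2, -1) (A + 1)) := by
    intro A
    rw [hF]
    exact (hasSum_u (A + 1) (by omega)).mul_left _
  have habs : ∀ A K, ‖f A K‖ = |Φ (A + 1)| * (u (K + 1) (A + 1) / ((K : ℝ) + 1) ^ 2) := by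
    intro A K
    rw [Real.norm_eq_abs]
    simp only [f]
    rw [abs_mul, abs_mul, abs_pow, abs_neg, abs_one, one_pow, one_mul,
      abs_of_nonneg (div_nonneg (u_nonneg _ _) (by positivity))]
  have hsum : Summable (Function.uncurry f) := by
    rw [← summable_norm_iff]
    refine (summable_prod_of_nonneg (fun x => norm_nonneg _)).2 ⟨fun A => ?_, ?_⟩
    · simp only [Function.uncurry, habs]
      exact (hasSum_u (A + 1) (by omega)).summable.mul_left _
    · simp only [Function.uncurry, habs]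
      have h4 : ∀ A : ℕ, ∑' K : ℕ, |Φ (A + 1)| * (u (K + 1) (A + 1) / ((K : ℝ) + 1) ^ 2) =
          |F 1 2 (G r) (2, -1) (A + 1)| := by
        intro A
        rw [tsum_mul_left, (hasSum_u (A + 1) (by omega)).tsum_eq, hF, abs_mul, abs_mul, abs_pow, abs_neg,
          abs_one, one_pow, one_mul, abs_of_nonneg (a := 1 / (((A + 1 : ℕ) : ℝ)) ^ 2) (by positivity)]
      simp_rw [h4]
      exact (summable_of_bound hb).abs
  have hcomm : ∑' A, ∑' K, f A K = ∑' K, ∑' A, f A K := hsum.tsum_comm.symm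
  have h5 : ∑' i, F 1 2 (G r) (2, -1) (i + 1) = ∑' A, ∑' K, f A K :=
    tsum_congr fun A => (hrow A).tsum_eq.symm
  rw [h5, hcomm, ← tsum_mul_left]
  refine tsum_congr fun K => ?_
  have h6 : ∑' A, f A K = ∑ A ∈ range (K + 1), f A K := by
    refine tsum_eq_sum fun A hA => ?_
    rw [Finset.mem_range] at hA
    simp only [f]
    rw [u_eq_zero (by omega)]
    simp
  have h7 : ∑ A ∈ range (K + 1), f A K = S Φ (K + 1) / ((K : ℝ) + 1) ^ 2 := by
    unfold S
    rw [sum_Ioc_eq_range, Finset.sum_div]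
    refine Finset.sum_congr rfl fun A _ => ?_
    simp only [f]
    ring
  have h8 := S_G r (K + 1)
  rw [h6, h7]
  have hK : (0 : ℝ) < (K : ℝ) + 1 := by positivity
  push_cast at h8
  have h9 : S Φ (K + 1) = -2 * hd (K + 1) / ((K : ℝ) + 1) ^ (r + 1) := by
    rw [eq_div_iff (by positivity)]
    linarith
  rw [h9, div_div, ← pow_add, mul_div_assoc]

/-! ### The double zeta values -/

/-- harmonic numbers -/
def h (n : ℕ) : ℝ := ∑ j ∈ Ioc 0 n, 1 / (j : ℝ)

lemma hd_eq (a : ℕ) : hd a = h (2 * a) - h a := by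
  unfold hd h
  rw [eq_sub_iff_add_eq, add_comm]
  exact Finset.sum_Ioc_consecutive _ (by omega) (by omega)

lemma sum_refl (b : ℕ) (hb : 1 ≤ b) : ∑ a ∈ Ioo 0 b, 1 / ((b : ℝ) - a) = h b - 1 / b := by
  have h1 : ∑ a ∈ Ioo 0 b, 1 / ((b : ℝ) - a) = ∑ a ∈ Ioo 0 b, 1 / (a : ℝ) := by
    refine Finset.sum_nbij' (fun a => b - a) (fun a => b - a) ?_ ?_ ?_ ?_ ?_
    · intro a ha; rw [Finset.mem_Ioo] at ha ⊢; omega
    · intro a ha; rw [Finset.mem_Ioo] at ha ⊢; omega
    · intro a ha; rw [Finset.mem_Ioo] at ha; omega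
    · intro a ha; rw [Finset.mem_Ioo] at ha; omega
    · intro a ha
      rw [Finset.mem_Ioo] at ha
      rw [Nat.cast_sub ha.2.le]
  have h2 : h b = ∑ a ∈ Ioo 0 b, 1 / (a : ℝ) + 1 / b := by
    obtain ⟨k, rfl⟩ := Nat.exists_eq_succ_of_ne_zero (by omega : b ≠ 0)
    unfold h
    rw [Nat.succ_eq_add_one, Ioo_succ, sum_Ioc_succ']
  rw [h1, h2]; ring

lemma sum_plus (b : ℕ) (hb : 1 ≤ b) :
    ∑ a ∈ Ioo 0 b, 1 / ((b : ℝ) + a) = h (2 * b) - h b - 1 / (2 * b) := by
  have h1 : ∑ a ∈ Ioo 0 b, 1 / ((b : ℝ) + a) = ∑ j ∈ Ioo b (2 * b), 1 / (j : ℝ) := by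
    refine Finset.sum_nbij' (fun a => b + a) (fun a => a - b) ?_ ?_ ?_ ?_ ?_
    · intro a ha; rw [Finset.mem_Ioo] at ha ⊢; omega
    · intro a ha; rw [Finset.mem_Ioo] at ha ⊢; omega
    · intro a ha; rw [Finset.mem_Ioo] at ha; omega
    · intro a ha; rw [Finset.mem_Ioo] at ha; omega
    · intro a ha; push_cast; rfl
  have h2 : hd b = ∑ j ∈ Ioo b (2 * b), 1 / (j : ℝ) + 1 / (2 * b) := by
    unfold hd
    have : Ioc b (2 * b) = insert (2 * b) (Ioo b (2 * b)) := by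
      ext n; simp only [Finset.mem_Ioo, Finset.mem_Ioc, Finset.mem_insert]; omega
    rw [this, Finset.sum_insert (by simp)]
    push_cast
    ring
  rw [h1, ← hd_eq, h2]; ring

lemma sum_above (a N : ℕ) (haN : a ≤ N) :
    ∑ b ∈ Ioc a N, (1 / ((b : ℝ) - a) - 1 / (b + a)) = h (2 * a) - (h (N + a) - h (N - a)) := by
  rw [Finset.sum_sub_distrib]
  have h1 : ∑ b ∈ Ioc a N, 1 / ((b : ℝ) - a) = h (N - a) := by
    unfold h
    refine Finset.sum_nbij' (fun b => b - a) (fun b => b + a) ?_ ?_ ?_ ?_ ?_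
    · intro b hb; rw [Finset.mem_Ioc] at hb ⊢; omega
    · intro b hb; rw [Finset.mem_Ioc] at hb ⊢; omega
    · intro b hb; rw [Finset.mem_Ioc] at hb; omega
    · intro b hb; omega
    · intro b hb
      rw [Finset.mem_Ioc] at hb
      rw [Nat.cast_sub (by omega)]
  have h2 : ∑ b ∈ Ioc a N, 1 / ((b : ℝ) + a) = ∑ j ∈ Ioc (2 * a) (N + a), 1 / (j : ℝ) := by
    refine Finset.sum_nbij' (fun b => b + a) (fun b => b - a) ?_ ?_ ?_ ?_ ?_
    · intro b hb; rw [Finset.mem_Ioc] at hb ⊢; omega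
    · intro b hb; rw [Finset.mem_Ioc] at hb ⊢; omega
    · intro b hb; omega
    · intro b hb; rw [Finset.mem_Ioc] at hb; omega
    · intro b hb; push_cast; rfl
  have h3 : h (2 * a) + ∑ j ∈ Ioc (2 * a) (N + a), 1 / (j : ℝ) = h (N + a) :=
    Finset.sum_Ioc_consecutive _ (by omega) (by omega)
  rw [h1, h2]; linarith

lemma h_gap (a N : ℕ) (ha : 1 ≤ a) (haN : a ≤ N) :
    0 ≤ h (N + a) - h (N - a) ∧ h (N + a) - h (N - a) ≤ 8 * (a : ℝ) ^ 2 / N := by
  have h3 : h (N - a) + ∑ j ∈ Ioc (N - a) (N + a), 1 / (j : ℝ) = h (N + a) :=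
    Finset.sum_Ioc_consecutive _ (by omega) (by omega)
  have h4 : h (N + a) - h (N - a) = ∑ j ∈ Ioc (N - a) (N + a), 1 / (j : ℝ) := by linarith
  rw [h4]
  refine ⟨Finset.sum_nonneg fun j _ => by positivity, ?_⟩
  have haR : (1 : ℝ) ≤ a := by exact_mod_cast ha
  have hNR : (a : ℝ) ≤ N := by exact_mod_cast haN
  have hN0 : (0 : ℝ) < N := by linarith
  have hcard : (Ioc (N - a) (N + a)).card = 2 * a := by rw [Nat.card_Ioc]; omega
  rcases le_or_gt (2 * a) N with hc | hc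
  · have hcR : 2 * (a : ℝ) ≤ N := by exact_mod_cast hc
    have h5 : ∀ j ∈ Ioc (N - a) (N + a), 1 / (j : ℝ) ≤ 2 / N := by
      intro j hj
      rw [Finset.mem_Ioc] at hj
      have h6 : N ≤ j + a := by omega
      have h7 : (N : ℝ) ≤ j + a := by exact_mod_cast h6
      have h8 : (0 : ℝ) < j := by linarith
      rw [div_le_div_iff₀ h8 hN0]
      linarith
    refine (Finset.sum_le_card_nsmul _ _ _ h5).trans ?_
    rw [hcard, nsmul_eq_mul, mul_div_assoc']
    push_cast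
    apply div_le_div_of_nonneg_right _ hN0.le
    nlinarith
  · have hcR : (N : ℝ) ≤ 2 * a := by exact_mod_cast hc.le
    have h5 : ∀ j ∈ Ioc (N - a) (N + a), 1 / (j : ℝ) ≤ 1 := by
      intro j hj
      rw [Finset.mem_Ioc] at hj
      have h8 : (1 : ℝ) ≤ j := by exact_mod_cast (by omega : 1 ≤ j)
      rw [div_le_one (by linarith)]
      exact h8
    refine (Finset.sum_le_card_nsmul _ _ _ h5).trans ?_
    rw [hcard, nsmul_eq_mul, le_div_iff₀ hN0]
    push_cast
    nlinarith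

lemma rho_tendsto (d : ℕ) (hd3 : 3 ≤ d) :
    Tendsto (fun N : ℕ => ∑ a ∈ Ioc 0 N, 1 / (a : ℝ) ^ d * (h (N + a) - h (N - a))) atTop (𝓝 0) := by
  have hub : ∀ N : ℕ, 1 ≤ N → ∑ a ∈ Ioc 0 N, 1 / (a : ℝ) ^ d * (h (N + a) - h (N - a)) ≤
      16 * (√((N + 1 : ℕ) : ℝ) / N) := by
    intro N hN
    have hN0 : (0 : ℝ) < N := by exact_mod_cast hN
    have h1 : ∀ a ∈ Ioc 0 N, 1 / (a : ℝ) ^ d * (h (N + a) - h (N - a)) ≤ 8 / N * (1 / √(a : ℝ)) := by
      intro a ha
      rw [Finset.mem_Ioc] at ha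
      have haR : (1 : ℝ) ≤ a := by exact_mod_cast ha.1
      have h2 := (h_gap a N ha.1 ha.2).2
      have h3 : 1 / (a : ℝ) ^ d ≤ 1 / (a : ℝ) ^ 3 :=
        one_div_le_one_div_of_le (by positivity) (pow_le_pow_right₀ haR hd3)
      have h5 : √(a : ℝ) ≤ a := by
        rw [Real.sqrt_le_left (by linarith)]; nlinarith
      have h6 : 0 < √(a : ℝ) := Real.sqrt_pos.2 (by linarith)
      have h7 := one_div_le_one_div_of_le h6 h5
      calc 1 / (a : ℝ) ^ d * (h (N + a) - h (N - a)) ≤ 1 / (a : ℝ) ^ 3 * (8 * (a : ℝ) ^ 2 / N) := by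
            have := (h_gap a N ha.1 ha.2).1
            gcongr
        _ = 8 / N * (1 / (a : ℝ)) := by field_simp
        _ ≤ _ := by gcongr
    refine (Finset.sum_le_sum h1).trans ?_
    rw [← Finset.mul_sum, ← Ioo_succ]
    have h8 := mul_le_mul_of_nonneg_left (sum_inv_sqrt (N + 1)) (by positivity : (0 : ℝ) ≤ 8 / N)
    refine h8.trans (le_of_eq ?_)
    ring
  have hlim : Tendsto (fun N : ℕ => 16 * (√((N + 1 : ℕ) : ℝ) / N)) atTop (𝓝 0) := by
    have h1 : Tendsto (fun N : ℕ => √((N + 1 : ℕ) : ℝ)) atTop atTop :=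
      Real.tendsto_sqrt_atTop.comp (tendsto_natCast_atTop_atTop.comp (tendsto_add_atTop_nat 1))
    have h2 : Tendsto (fun N : ℕ => 32 * (1 / √((N + 1 : ℕ) : ℝ))) atTop (𝓝 (32 * 0)) := by
      refine Tendsto.const_mul _ ?_
      simp_rw [one_div]
      exact tendsto_inv_atTop_zero.comp h1
    rw [mul_zero] at h2
    refine squeeze_zero' (Filter.Eventually.of_forall fun N => by positivity) ?_ h2
    filter_upwards [eventually_ge_atTop 1] with N hN
    have hN0 : (1 : ℝ) ≤ N := by exact_mod_cast hN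
    have h3 : 0 < √((N + 1 : ℕ) : ℝ) := Real.sqrt_pos.2 (by positivity)
    have h4 : √((N + 1 : ℕ) : ℝ) * √((N + 1 : ℕ) : ℝ) = N + 1 := by
      rw [Real.mul_self_sqrt (by positivity)]; push_cast; ring
    rw [mul_one_div, mul_div_assoc', div_le_div_iff₀ (by linarith) h3]
    nlinarith
  refine squeeze_zero' ?_ ?_ hlim
  · refine Filter.Eventually.of_forall fun N => Finset.sum_nonneg fun a ha => ?_
    rw [Finset.mem_Ioc] at ha
    exact mul_nonneg (by positivity) (h_gap a N ha.1 ha.2).1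
  · filter_upwards [eventually_ge_atTop 1] with N hN using hub N hN

lemma geo_even (a b : ℝ) (ha : 0 < a) (hb : 0 < b) (J : ℕ) :
    (b ^ 2 - a ^ 2) * ∑ n ∈ (Icc 2 (2 * J + 2)).filter Even, 1 / (a ^ (2 * J + 3 - n) * b ^ n) =
      1 / a ^ (2 * J + 1) - a / b ^ (2 * J + 2) := by
  induction J with
  | zero =>
    have h1 : (Icc 2 (2 * 0 + 2)).filter Even = {2} := by decide
    rw [h1, Finset.sum_singleton]
    norm_num
    field_simp
  | succ J ih =>
    have h1 : (Icc 2 (2 * (J + 1) + 2)).filter Even =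
        insert (2 * J + 4) ((Icc 2 (2 * J + 2)).filter Even) := by
      ext n
      simp only [Finset.mem_filter, Finset.mem_Icc, Finset.mem_insert]
      constructor
      · rintro ⟨⟨h2, h3⟩, k, rfl⟩
        by_cases h4 : k + k = 2 * J + 4
        · left; exact h4
        · right; exact ⟨⟨h2, by omega⟩, k, rfl⟩
      · rintro (rfl | ⟨⟨h2, h3⟩, h4⟩)
        · exact ⟨⟨by omega, by omega⟩, J + 2, by ring⟩
        · exact ⟨⟨h2, by omega⟩, h4⟩
    have h2 : 2 * J + 4 ∉ (Icc 2 (2 * J + 2)).filter Even := by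
      simp only [Finset.mem_filter, Finset.mem_Icc]; omega
    rw [h1, Finset.sum_insert h2]
    have h3 : ∑ n ∈ (Icc 2 (2 * J + 2)).filter Even, 1 / (a ^ (2 * (J + 1) + 3 - n) * b ^ n) =
        (∑ n ∈ (Icc 2 (2 * J + 2)).filter Even, 1 / (a ^ (2 * J + 3 - n) * b ^ n)) / a ^ 2 := by
      rw [Finset.sum_div]
      refine Finset.sum_congr rfl fun n hn => ?_
      simp only [Finset.mem_filter, Finset.mem_Icc] at hn
      have h4 : 2 * (J + 1) + 3 - n = (2 * J + 3 - n) + 2 := by omega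
      rw [h4, pow_add]
      field_simp
    have h4 : 2 * (J + 1) + 3 - (2 * J + 4) = 1 := by omega
    have hmul : ∀ X : ℝ, (b ^ 2 - a ^ 2) * (X / a ^ 2) = ((b ^ 2 - a ^ 2) * X) / a ^ 2 := fun X => by ring
    rw [h3, h4, mul_add, hmul, ih]
    have e1 : 2 * (J + 1) + 1 = (2 * J + 1) + 2 := by ring
    have e2 : 2 * (J + 1) + 2 = (2 * J + 2) + 2 := by ring
    have e3 : 2 * J + 4 = (2 * J + 2) + 2 := by ring
    rw [e1, e2, e3, pow_add a (2 * J + 1) 2, pow_add b (2 * J + 2) 2]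
    field_simp
    ring

lemma geo_odd (a b : ℝ) (ha : 0 < a) (hb : 0 < b) (J : ℕ) :
    (b ^ 2 - a ^ 2) * ∑ n ∈ (Icc 2 (2 * J + 3)).filter Even, 1 / (a ^ (2 * J + 4 - n) * b ^ n) =
      1 / a ^ (2 * J + 2) - 1 / b ^ (2 * J + 2) := by
  have h1 : (Icc 2 (2 * J + 3)).filter Even = (Icc 2 (2 * J + 2)).filter Even := by
    ext n
    simp only [Finset.mem_filter, Finset.mem_Icc]
    constructor
    · rintro ⟨⟨h2, h3⟩, k, rfl⟩
      exact ⟨⟨h2, by omega⟩, k, rfl⟩
    · rintro ⟨⟨h2, h3⟩, h4⟩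
      exact ⟨⟨h2, by omega⟩, h4⟩
  have h3 : ∑ n ∈ (Icc 2 (2 * J + 2)).filter Even, 1 / (a ^ (2 * J + 4 - n) * b ^ n) =
      (∑ n ∈ (Icc 2 (2 * J + 2)).filter Even, 1 / (a ^ (2 * J + 3 - n) * b ^ n)) / a := by
    rw [Finset.sum_div]
    refine Finset.sum_congr rfl fun n hn => ?_
    simp only [Finset.mem_filter, Finset.mem_Icc] at hn
    have h4 : 2 * J + 4 - n = (2 * J + 3 - n) + 1 := by omega
    rw [h4, pow_add]
    field_simp
  rw [h1, h3, mul_div_assoc', geo_even a b ha hb J, pow_succ a (2 * J + 1)]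
  field_simp

/-- the kernel of the sum of double zeta values -/
lemma kernel (d : ℕ) (hd3 : 3 ≤ d) (a b : ℕ) (ha : 1 ≤ a) (hab : a < b) :
    ∑ n ∈ (Icc 2 d).filter Even, 1 / ((a : ℝ) ^ (d + 1 - n) * (b : ℝ) ^ n) =
      1 / 2 * (1 / (a : ℝ) ^ d * (1 / ((b : ℝ) - a) - 1 / (b + a))) -
      1 / 2 * (1 / (b : ℝ) ^ d * (1 / ((b : ℝ) - a) - (-1) ^ d * (1 / (b + a)))) := by
  have ha0 : (0 : ℝ) < a := by exact_mod_cast ha
  have hab0 : (a : ℝ) < b := by exact_mod_cast hab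
  have hb0 : (0 : ℝ) < b := by linarith
  have h1 : (b : ℝ) ^ 2 - (a : ℝ) ^ 2 = (b - a) * (b + a) := by ring
  have h2 : (0 : ℝ) < b - a := by linarith
  have h3 : (0 : ℝ) < b + a := by linarith
  have h4 : (0 : ℝ) < (b : ℝ) ^ 2 - (a : ℝ) ^ 2 := by rw [h1]; positivity
  rcases Nat.even_or_odd' d with ⟨c, hc | hc⟩
  · obtain ⟨J, rfl⟩ : ∃ J, c = J + 1 := ⟨c - 1, by omega⟩
    have e : d = 2 * J + 2 := by omega
    subst e
    have h5 := geo_even a b ha0 hb0 J
    have h6 : (-1 : ℝ) ^ (2 * J + 2) = 1 := by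
      rw [show 2 * J + 2 = 2 * (J + 1) by ring, pow_mul]; norm_num
    have h7 : ∑ n ∈ (Icc 2 (2 * J + 2)).filter Even, 1 / ((a : ℝ) ^ (2 * J + 2 + 1 - n) * (b : ℝ) ^ n) =
        (1 / (a : ℝ) ^ (2 * J + 1) - a / (b : ℝ) ^ (2 * J + 2)) / ((b : ℝ) ^ 2 - (a : ℝ) ^ 2) := by
      rw [eq_div_iff h4.ne', mul_comm, ← h5]
    rw [h7, h6, h1, pow_succ (a : ℝ) (2 * J + 1)]
    field_simp
    ring
  · obtain ⟨J, rfl⟩ : ∃ J, c = J + 1 := ⟨c - 1, by omega⟩
    have e : d = 2 * J + 3 := by omega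
    subst e
    have h5 := geo_odd a b ha0 hb0 J
    have h6 : (-1 : ℝ) ^ (2 * J + 3) = -1 := by
      rw [show 2 * J + 3 = 2 * (J + 1) + 1 by ring, pow_succ, pow_mul]; norm_num
    have h7 : ∑ n ∈ (Icc 2 (2 * J + 3)).filter Even, 1 / ((a : ℝ) ^ (2 * J + 3 + 1 - n) * (b : ℝ) ^ n) =
        (1 / (a : ℝ) ^ (2 * J + 2) - 1 / (b : ℝ) ^ (2 * J + 2)) / ((b : ℝ) ^ 2 - (a : ℝ) ^ 2) := by
      rw [eq_div_iff h4.ne', mul_comm, ← h5]
    rw [h7, h6, h1, pow_succ (a : ℝ) (2 * J + 2), pow_succ (b : ℝ) (2 * J + 2)]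
    field_simp
    ring

lemma swap_sum (f : ℕ → ℕ → ℝ) (N : ℕ) :
    ∑ a ∈ Ioc 0 N, ∑ b ∈ Ioc a N, f a b = ∑ b ∈ Ioc 0 N, ∑ a ∈ Ioo 0 b, f a b := by
  have h1 : ∀ a ∈ Ioc 0 N, ∑ b ∈ Ioc a N, f a b = ∑ b ∈ Ioc 0 N, if a < b then f a b else 0 := by
    intro a ha
    rw [← Finset.sum_filter]
    refine Finset.sum_congr ?_ fun _ _ => rfl
    ext b; simp only [Finset.mem_filter, Finset.mem_Ioc]; omega
  have h2 : ∀ b ∈ Ioc 0 N, ∑ a ∈ Ioo 0 b, f a b = ∑ a ∈ Ioc 0 N, if a < b then f a b else 0 := by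
    intro b hb
    rw [Finset.mem_Ioc] at hb
    rw [← Finset.sum_filter]
    refine Finset.sum_congr ?_ fun _ _ => rfl
    ext a; simp only [Finset.mem_filter, Finset.mem_Ioc, Finset.mem_Ioo]; omega
  rw [Finset.sum_congr rfl h1, Finset.sum_comm, Finset.sum_congr rfl h2]

/-- the value at `d` of the limit of the sum of double zeta values, termwise -/
def zt (d a : ℕ) : ℝ := (if Even d then hd a / (a : ℝ) ^ d + 1 / 4 * (1 / (a : ℝ) ^ (d + 1))
  else 3 / 4 * (1 / (a : ℝ) ^ (d + 1)))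

lemma E_eq (d : ℕ) (hd3 : 3 ≤ d) (N : ℕ) :
    ∑ n ∈ (Icc 2 d).filter Even, trunc [(d + 1 - n, 1), (n, 1)] 0 N =
      ∑ a ∈ Ioc 0 N, zt d a - 1 / 2 * ∑ a ∈ Ioc 0 N, 1 / (a : ℝ) ^ d * (h (N + a) - h (N - a)) := by
  have h1 : ∀ n, trunc [(d + 1 - n, 1), (n, 1)] 0 N =
      ∑ a ∈ Ioc 0 N, ∑ b ∈ Ioc a N, 1 / ((a : ℝ) ^ (d + 1 - n) * (b : ℝ) ^ n) := by
    intro n
    simp only [trunc, term, Units.val_one, Int.cast_one, one_pow, mul_one, Finset.mul_sum]
    refine Finset.sum_congr rfl fun a _ => Finset.sum_congr rfl fun b _ => ?_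
    rw [div_mul_div_comm, one_mul]
  rw [Finset.sum_congr rfl fun n _ => h1 n, Finset.sum_comm]
  have h2 : ∀ a ∈ Ioc 0 N, ∑ n ∈ (Icc 2 d).filter Even, ∑ b ∈ Ioc a N,
      1 / ((a : ℝ) ^ (d + 1 - n) * (b : ℝ) ^ n) =
      ∑ b ∈ Ioc a N, (1 / 2 * (1 / (a : ℝ) ^ d * (1 / ((b : ℝ) - a) - 1 / (b + a))) -
      1 / 2 * (1 / (b : ℝ) ^ d * (1 / ((b : ℝ) - a) - (-1) ^ d * (1 / (b + a))))) := by
    intro a ha
    rw [Finset.sum_comm]
    refine Finset.sum_congr rfl fun b hb => ?_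
    rw [Finset.mem_Ioc] at ha hb
    exact kernel d hd3 a b (by omega) hb.1
  rw [Finset.sum_congr rfl h2]
  simp only [Finset.sum_sub_distrib]
  have h3 : ∑ a ∈ Ioc 0 N, ∑ b ∈ Ioc a N, 1 / 2 * (1 / (a : ℝ) ^ d * (1 / ((b : ℝ) - a) - 1 / (b + a))) =
      ∑ a ∈ Ioc 0 N, 1 / 2 * (1 / (a : ℝ) ^ d * (h (2 * a) - (h (N + a) - h (N - a)))) := by
    refine Finset.sum_congr rfl fun a ha => ?_
    rw [Finset.mem_Ioc] at ha
    rw [← Finset.mul_sum, ← Finset.mul_sum, sum_above a N ha.2]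
  have h4 : ∑ a ∈ Ioc 0 N, ∑ b ∈ Ioc a N, 1 / 2 * (1 / (b : ℝ) ^ d *
      (1 / ((b : ℝ) - a) - (-1) ^ d * (1 / (b + a)))) =
      ∑ b ∈ Ioc 0 N, 1 / 2 * (1 / (b : ℝ) ^ d * ((h b - 1 / b) - (-1) ^ d * (h (2 * b) - h b - 1 / (2 * b)))) := by
    rw [swap_sum]
    refine Finset.sum_congr rfl fun b hb => ?_
    rw [Finset.mem_Ioc] at hb
    rw [← Finset.mul_sum, ← Finset.mul_sum, Finset.sum_sub_distrib, ← Finset.mul_sum, sum_refl b hb.1,
      sum_plus b hb.1]
  rw [h3, h4, Finset.mul_sum, ← Finset.sum_sub_distrib, ← Finset.sum_sub_distrib]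
  refine Finset.sum_congr rfl fun a ha => ?_
  rw [Finset.mem_Ioc] at ha
  have ha0 : (0 : ℝ) < a := by exact_mod_cast ha.1
  unfold zt
  split_ifs with he
  · rw [he.neg_one_pow, hd_eq, pow_succ]
    field_simp
    ring
  · rw [(Nat.not_even_iff_odd.1 he).neg_one_pow, pow_succ]
    field_simp
    ring

lemma summable_pow (e : ℕ) (he : 2 ≤ e) : Summable (fun i : ℕ => 1 / (((i + 1 : ℕ) : ℝ)) ^ e) :=
  (summable_nat_add_iff 1).2 (Real.summable_one_div_nat_pow.2 (by omega))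

lemma hd_nonneg (a : ℕ) : 0 ≤ hd a := Finset.sum_nonneg fun j _ => by positivity

lemma hd_le (a : ℕ) : hd a ≤ 1 := by
  unfold hd
  rcases Nat.eq_zero_or_pos a with h | h
  · subst h; simp
  · have ha0 : (0 : ℝ) < a := by exact_mod_cast h
    have h1 : ∀ j ∈ Ioc a (2 * a), 1 / (j : ℝ) ≤ 1 / a := by
      intro j hj
      rw [Finset.mem_Ioc] at hj
      exact one_div_le_one_div_of_le ha0 (by exact_mod_cast hj.1.le)
    refine (Finset.sum_le_card_nsmul _ _ _ h1).trans ?_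
    rw [Nat.card_Ioc, nsmul_eq_mul, show 2 * a - a = a by omega]
    field_simp
    exact le_rfl

lemma hd_ge (k : ℕ) : 1 / 2 + (if k = 0 then 0 else 1 / 12) ≤ hd (k + 1) := by
  have h0 : hd 1 = 1 / 2 := by
    unfold hd
    rw [show Ioc 1 (2 * 1) = {2} by decide, Finset.sum_singleton]
    norm_num
  have h1 : hd 2 = 7 / 12 := by
    rw [hd_succ, h0]; norm_num
  have h2 : ∀ k, hd 2 ≤ hd (k + 2) := by
    intro k
    induction k with
    | zero => exact le_rfl
    | succ k ih =>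
      have e : hd (k + 1 + 2) = hd (k + 2) + 1 / ((2 * ((k + 2 : ℕ) : ℝ) + 1) * (2 * ((k + 2 : ℕ) : ℝ) + 2)) :=
        hd_succ (k + 2)
      have : (0 : ℝ) ≤ 1 / ((2 * ((k + 2 : ℕ) : ℝ) + 1) * (2 * ((k + 2 : ℕ) : ℝ) + 2)) := by positivity
      rw [e]
      linarith
  cases k with
  | zero => simp [h0]
  | succ k =>
    have := h2 k
    rw [h1] at this
    simp only [Nat.add_eq_zero_iff, one_ne_zero, and_false, if_false]
    linarith

lemma summable_hd (d : ℕ) (hd3 : 3 ≤ d) : Summable (fun i : ℕ => hd (i + 1) / ((i : ℝ) + 1) ^ d) := by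
  refine Summable.of_nonneg_of_le (fun i => div_nonneg (hd_nonneg _) (by positivity)) (fun i => ?_)
    (summable_pow d (by omega))
  push_cast
  exact div_le_div_of_nonneg_right (hd_le _) (by positivity)

/-- **Main theorem.** For `d ≥ 3`: all the Euler sums that occur converge; the sharp sum
`ζ♯(2, 1_{d-3}, 2bar)` is `-2 ∑_{k ≥ 1} (H_{2k} - H_k) / k ^ d`; and the identity of the problem holds for
`d` if and only if `d` is even. -/
theorem result (d : ℕ) (hd3 : 3 ≤ d) :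
    (∀ t ∈ strings (2, 1) (List.replicate (d - 3) (1, 1) ++ [(2, -1)]), Converges t) ∧
    Converges [(d + 1, 1)] ∧
    (∀ n ∈ (Icc 2 d).filter Even, Converges [(d + 1 - n, 1), (n, 1)]) ∧
    zetaSharp (2, 1) (List.replicate (d - 3) (1, 1) ++ [(2, -1)]) =
      -2 * ∑' k : ℕ, hd (k + 1) / ((k : ℝ) + 1) ^ d ∧
    (zetaSharp (2, 1) (List.replicate (d - 3) (1, 1) ++ [(2, -1)]) =
      1 / 2 * zeta [(d + 1, 1)] - 2 * ∑ n ∈ (Icc 2 d).filter Even, zeta [(d + 1 - n, 1), (n, 1)] ↔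
      Even d) := by
  obtain ⟨r, rfl⟩ : ∃ r, d = r + 3 := ⟨d - 3, by omega⟩
  have hr : r + 3 - 3 = r := by omega
  rw [hr]
  have hc1 : Converges [(r + 3 + 1, 1)] := converges_of_adm _ (show 2 ≤ r + 3 + 1 by omega)
  have hc2 : ∀ n ∈ (Icc 2 (r + 3)).filter Even, Converges [(r + 3 + 1 - n, 1), (n, 1)] := by
    intro n hn
    simp only [Finset.mem_filter, Finset.mem_Icc] at hn
    refine converges_of_adm _ ⟨?_, ?_⟩
    · show 1 ≤ r + 3 + 1 - n; omega
    · show 2 ≤ n; omega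
  refine ⟨fun t ht => converges_of_adm t (adm_strings _ _ (adm_index r) t ht), hc1, hc2, sharp_eval r, ?_⟩
  -- the single zeta value
  have hz1 : zeta [(r + 3 + 1, 1)] = ∑' i : ℕ, 1 / (((i + 1 : ℕ) : ℝ)) ^ (r + 3 + 1) := by
    refine tendsto_nhds_unique (zeta_tendsto hc1) ?_
    have h1 := (summable_pow (r + 3 + 1) (by omega)).hasSum.tendsto_sum_nat
    refine h1.congr fun N => ?_
    simp only [trunc, term, Units.val_one, Int.cast_one, one_pow, mul_one]
    rw [sum_Ioc_eq_range]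
  -- the sum of the double zeta values
  have hz2 : ∑ n ∈ (Icc 2 (r + 3)).filter Even, zeta [(r + 3 + 1 - n, 1), (n, 1)] =
      ∑' i : ℕ, zt (r + 3) (i + 1) := by
    have h1 : Tendsto (fun N => ∑ n ∈ (Icc 2 (r + 3)).filter Even, trunc [(r + 3 + 1 - n, 1), (n, 1)] 0 N)
        atTop (𝓝 (∑ n ∈ (Icc 2 (r + 3)).filter Even, zeta [(r + 3 + 1 - n, 1), (n, 1)])) :=
      tendsto_finsetSum _ fun n hn => zeta_tendsto (hc2 n hn)
    simp_rw [E_eq (r + 3) hd3] at h1
    have hs : Summable (fun i : ℕ => zt (r + 3) (i + 1)) := by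
      unfold zt
      split_ifs with he
      · refine Summable.add ?_ ((summable_pow (r + 3 + 1) (by omega)).mul_left _)
        refine (summable_hd (r + 3) hd3).congr fun i => ?_
        push_cast; rfl
      · exact (summable_pow (r + 3 + 1) (by omega)).mul_left _
    have h2 : Tendsto (fun N : ℕ => ∑ a ∈ Ioc 0 N, zt (r + 3) a -
        1 / 2 * ∑ a ∈ Ioc 0 N, 1 / (a : ℝ) ^ (r + 3) * (h (N + a) - h (N - a))) atTop
        (𝓝 (∑' i : ℕ, zt (r + 3) (i + 1) - 1 / 2 * 0)) := by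
      refine Tendsto.sub ?_ ((rho_tendsto (r + 3) hd3).const_mul _)
      simp_rw [sum_Ioc_eq_range]
      exact hs.hasSum.tendsto_sum_nat
    rw [mul_zero, sub_zero] at h2
    exact tendsto_nhds_unique h1 h2
  rw [sharp_eval, hz1, hz2]
  constructor
  · intro heq
    by_contra hodd
    have h3 : ∀ i, zt (r + 3) (i + 1) = 3 / 4 * (1 / (((i + 1 : ℕ) : ℝ)) ^ (r + 3 + 1)) := by
      intro i; unfold zt; rw [if_neg hodd]
    simp_rw [h3] at heq
    rw [tsum_mul_left] at heq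
    have h4 : ∑' i : ℕ, 1 / (((i + 1 : ℕ) : ℝ)) ^ (r + 3 + 1) <
        ∑' i : ℕ, 2 * (hd (i + 1) / ((i : ℝ) + 1) ^ (r + 3)) := by
      refine Summable.tsum_lt_tsum (i := 1) (fun i => ?_) ?_ (summable_pow _ (by omega))
        ((summable_hd (r + 3) hd3).mul_left 2)
      · have h5 := hd_ge i
        have h6 : (0 : ℝ) ≤ (if i = 0 then 0 else 1 / 12) := by split_ifs <;> norm_num
        have h7 : 1 ≤ 2 * hd (i + 1) := by linarith
        push_cast
        have h8 : (1 : ℝ) ≤ (i : ℝ) + 1 := by linarith [Nat.cast_nonneg (α := ℝ) i]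
        rw [mul_div_assoc']
        refine (one_div_le_one_div_of_le (by positivity) (pow_le_pow_right₀ h8 (Nat.le_succ _))).trans ?_
        exact div_le_div_of_nonneg_right h7 (by positivity)
      · have h5 := hd_ge 1
        rw [if_neg one_ne_zero] at h5
        push_cast
        rw [mul_div_assoc', pow_succ]
        rw [div_lt_div_iff₀ (by positivity) (by positivity)]
        have h9 : (0 : ℝ) < (1 + 1 : ℝ) ^ (r + 3) := by positivity
        have h10 : (1 : ℝ) < 2 * hd (1 + 1) * (1 + 1) := by linarith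
        have h11 := mul_lt_mul_of_pos_right h10 h9
        calc (1 : ℝ) * (1 + 1) ^ (r + 3) < 2 * hd (1 + 1) * (1 + 1) * (1 + 1) ^ (r + 3) := h11
          _ = _ := by ring
    rw [tsum_mul_left] at h4
    linarith
  · intro he
    have h3 : ∀ i, zt (r + 3) (i + 1) = hd (i + 1) / ((i : ℝ) + 1) ^ (r + 3) +
        1 / 4 * (1 / (((i + 1 : ℕ) : ℝ)) ^ (r + 3 + 1)) := by
      intro i; unfold zt; rw [if_pos he]; push_cast; rfl
    simp_rw [h3]
    rw [Summable.tsum_add (summable_hd (r + 3) hd3) ((summable_pow (r + 3 + 1) (by omega)).mul_left _),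
      tsum_mul_left]
    ring

end

end Pool.Agent.Results.MP_27090e_nt.SharpSumIffEven
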